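import Mathlib
import Pool.Agent.MP_61e9ba_co.Upper

namespace Pool.Agent.Results.MP_61e9ba_co.Threshold

open Pool.Agent.MP_61e9ba_co

/-- `α` is good for `t` exactly when `α > 1 - 1/(2t)`. -/
theorem result (t : ℕ) (ht : 2 ≤ t) (α : ℝ) : Good t α ↔ 1 - 1 / (2 * (t : ℝ)) < α :=
  ⟨fun h => lt_of_not_ge fun k => not_good t (by omega) α k h, good_of_lt t (by omega) α⟩

end Pool.Agent.Results.MP_61e9ba_co.Threshold
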